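import Mathlib

/-!
# Deterministic multihead pushdown automata with nested turns of bounded rank

The machines are those of the frozen statement S14679. An excursion of rank `0` is a part of the
computation in which the height of the stack is the same at both ends, not smaller in between and
larger by at most `h`; an excursion of rank `r + 1` is such a part (without the bound) which is cut
into `t` pieces, in each of which all falls or all rises of the height lie in excursions of rank
`r`. Space `log m` is expressed by a two-way multihead finite automaton on the word followed by `m`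
blanks.
-/

set_option autoImplicit false

namespace Pool.Agent.Helper17.TXC

/-- The transition function of a deterministic two-way pushdown automaton with `k` heads. -/
abbrev PDTrans (α Q Γ : Type) (k : ℕ) : Type :=
  Q → (Fin k → Bool × Option α) → Option Γ → Q × (Fin k → Fin 3) × List Γ

/-- The transition function of a deterministic two-way finite automaton with `k` heads. -/
abbrev FDTrans (α P : Type) (k : ℕ) : Type :=
  P → (Fin k → Bool × Option α) → P × (Fin k → Fin 3)

/-- What the heads at the positions `p` see on the word `w`. -/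
def view {α : Type} {k : ℕ} (w : List α) (p : Fin k → ℕ) : Fin k → Bool × Option α :=
  fun j => (decide (p j = 0), w[p j - 1]?)

/-- The heads move to the left (`0`), stay (`1`) or move to the right (`2`). -/
def move {k : ℕ} (n : ℕ) (p : Fin k → ℕ) (d : Fin k → Fin 3) : Fin k → ℕ :=
  fun i => if d i = 0 then p i - 1 else if d i = 1 then p i else min (p i + 1) (n + 1)

/-- One move of the pushdown automaton: the top symbol is replaced by a word. -/
def pdStep {α Q Γ : Type} {k : ℕ} (δ : PDTrans α Q Γ k) (w : List α)
    (c : Q × (Fin k → ℕ) × List Γ) : Q × (Fin k → ℕ) × List Γ :=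
  let a := δ c.1 (view w c.2.1) c.2.2.head?
  (a.1, move w.length c.2.1 a.2.1, a.2.2 ++ c.2.2.tail)

/-- The configuration (state, positions of the heads, stack) after `m` moves. -/
def pdConf {α Q Γ : Type} {k : ℕ} (δ : PDTrans α Q Γ k) (q₀ : Q) (w : List α) (m : ℕ) :
    Q × (Fin k → ℕ) × List Γ :=
  (pdStep δ w)^[m] (q₀, fun _ => 0, [])

/-- The pushdown automaton accepts `w` within `T` moves. -/
def AcceptsIn {α Q Γ : Type} {k : ℕ} (δ : PDTrans α Q Γ k) (q₀ : Q) (F : Set Q) (T : ℕ)
    (w : List α) : Prop :=
  ∃ m ≤ T, (pdConf δ q₀ w m).1 ∈ F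

/-- One move of the finite automaton. -/
def fdStep {α P : Type} {k : ℕ} (η : FDTrans α P k) (w : List α) (c : P × (Fin k → ℕ)) :
    P × (Fin k → ℕ) :=
  let a := η c.1 (view w c.2)
  (a.1, move w.length c.2 a.2)

/-- The finite automaton accepts `w`. -/
def FDAccepts {α P : Type} {k : ℕ} (η : FDTrans α P k) (p₀ : P) (G : Set P) (w : List α) : Prop :=
  ∃ m : ℕ, ((fdStep η w)^[m] (p₀, fun _ => 0)).1 ∈ G

/-- The word `u` followed by `m` blanks. -/
def padW {α : Type} (u : List α) (m : ℕ) : List (Option α) :=
  u.map some ++ List.replicate m none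

/-- Each step `i` in `[a, b]` with `R (H i) (H (i + 1))` lies in an interval `[c, d]` with the
property `E`, contained in `[a, b]`. -/
def AllIn (H : ℕ → ℕ) (R E : ℕ → ℕ → Prop) (a b : ℕ) : Prop :=
  ∀ i, a ≤ i → i < b → R (H i) (H (i + 1)) → ∃ c d, a ≤ c ∧ c ≤ i ∧ i < d ∧ d ≤ b ∧ E c d

/-- `[a, b]` is cut into `t` pieces, in each of which all falls or all rises of `H` lie in intervals
with the property `E`. -/
def Pieces (H : ℕ → ℕ) (t : ℕ) (E : ℕ → ℕ → Prop) (a b : ℕ) : Prop :=
  ∃ s : ℕ → ℕ, Monotone s ∧ s 0 = a ∧ s t = b ∧ ∀ j < t,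
    AllIn H (· > ·) E (s j) (s (j + 1)) ∨ AllIn H (· < ·) E (s j) (s (j + 1))

/-- `[a, b]` is an excursion of rank `r`: the height `H` is the same at both ends and not smaller in
between; if `r = 0`, it is larger by at most `h`; if `r > 0`, `[a, b]` is cut into `t` pieces, in
each of which all falls or all rises lie in excursions of rank `r - 1`. -/
def Excursion (H : ℕ → ℕ) (h t r : ℕ) : ℕ → ℕ → Prop :=
  (fun E a b => H a = H b ∧ (∀ i, a ≤ i → i ≤ b → H a ≤ H i) ∧ Pieces H t E a b)^[r]
    (fun a b => H a = H b ∧ ∀ i, a ≤ i → i ≤ b → H a ≤ H i ∧ H i ≤ H a + h)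

/-- `L` refines the heights `H 0, …, H T`: it is `H m` at the time `s m` and monotone from `s m` to
`s (m + 1)` (the symbols of a pushed word may be pushed one after the other). -/
def Refines (L H s : ℕ → ℕ) (T : ℕ) : Prop :=
  Monotone s ∧ s 0 = 0 ∧ (∀ m ≤ T, L (s m) = H m) ∧ ∀ m < T,
    (∀ i, s m ≤ i → i < s (m + 1) → L i ≤ L (i + 1)) ∨
      (∀ i, s m ≤ i → i < s (m + 1) → L (i + 1) ≤ L i)

/-- The pushdown automaton accepts `w`, and up to the first time with a state in `F` the height of
the stack, refined if necessary, has `t` pieces, in each of which all falls or all rises lie in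
excursions of rank `r`. -/
def AcceptsNested {α Q Γ : Type} {k : ℕ} (δ : PDTrans α Q Γ k) (q₀ : Q) (F : Set Q)
    (r h t : ℕ) (w : List α) : Prop :=
  ∃ T : ℕ, (pdConf δ q₀ w T).1 ∈ F ∧ (∀ m < T, (pdConf δ q₀ w m).1 ∉ F) ∧
    ∃ L s : ℕ → ℕ, Refines L (fun m => (pdConf δ q₀ w m).2.2.length) s T ∧
      Pieces L t (Excursion L h t r) 0 (s T)

end Pool.Agent.Helper17.TXC
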