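import Pool.Agent.Helper17.TXC.Defs
import Pool.Agent.Helper17.TX.Final3

/-!
The main theorem in the terms of `TXC.Defs`.
-/

set_option autoImplicit false

namespace Pool.Agent.Helper17.TXC

open Pool.Agent.Helper17 (SL.PDTrans)

theorem few_iff (H : ℕ → ℕ) (t : ℕ) (E : ℕ → ℕ → Prop) (a b : ℕ) :
    Pieces H t E a b ↔ TX.Few H E t a b := Iff.rfl

theorem exc_eq (H : ℕ → ℕ) (h t r : ℕ) : Excursion H h t r = TX.Exc H h t r := by
  induction r with
  | zero => rfl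
  | succ r ih =>
    unfold Excursion at ih ⊢
    rw [Function.iterate_succ_apply', ih]
    rfl

theorem nested_iff {α Q Γ : Type} {k : ℕ} (δ : PDTrans α Q Γ k) (q₀ : Q) (F : Set Q)
    (r h t : ℕ) (w : List α) :
    AcceptsNested δ q₀ F r h t w ↔ TX.AcceptsNested δ q₀ F r h t w := by
  unfold AcceptsNested
  simp only [exc_eq]
  exact Iff.rfl

theorem in_iff {α Q Γ : Type} {k : ℕ} (δ : PDTrans α Q Γ k) (q₀ : Q) (F : Set Q)
    (T : ℕ) (w : List α) :
    AcceptsIn δ q₀ F T w ↔ SL.AcceptsIn δ q₀ F T w := Iff.rfl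

theorem fd_iff {α P : Type} {k : ℕ} (η : FDTrans α P k) (p₀ : P) (G : Set P) (w : List α) :
    FDAccepts η p₀ G w ↔ UL.FDAccepts η p₀ G w := Iff.rfl

theorem padW_eq {α : Type} (u : List α) (m : ℕ) : padW u m = UL.padW u m := rfl

theorem main {α Q Γ : Type} [Fintype α] [Fintype Q] [Fintype Γ] {k : ℕ}
    (δ : PDTrans α Q Γ k) (q₀ : Q) (F : Set Q) (r : ℕ) :
    (∃ (C : ℝ) (k' : ℕ) (P : Type) (_ : Fintype P) (η : FDTrans (Option α) P k') (p₀ : P)
      (G : Set P),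
      (∀ (u : List α) (m : ℕ), FDAccepts η p₀ G (padW u m) → ∃ T, AcceptsIn δ q₀ F T u) ∧
      (∀ (u : List α) (T m : ℕ) (S : ℝ), 1 ≤ T → S = Real.log (u.length + T + 16) →
        Real.exp (C * S * (1 + Real.log T / Real.log S)) ≤ m →
        AcceptsIn δ q₀ F T u → FDAccepts η p₀ G (padW u m)) ∧
      ∀ (u : List α) (t h m : ℕ) (S : ℝ), 1 ≤ t → S = Real.log (u.length + t + 16) + h →
        Real.exp (C * S * (1 + Real.log t / Real.log S)) ≤ m →
        AcceptsNested δ q₀ F r h t u → FDAccepts η p₀ G (padW u m)) ∧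
    ∀ c : ℕ,
      (∀ u : List α, (∃ T, AcceptsIn δ q₀ F T u) →
        ∃ t h : ℕ, (t : ℝ) ≤ Real.log (u.length + 16) ^ c ∧
          (h : ℝ) ≤ c * Real.log (u.length + 16) ∧ AcceptsNested δ q₀ F r h t u) →
      ∃ (k' : ℕ) (P : Type) (_ : Fintype P) (η : FDTrans α P k') (p₀ : P) (G : Set P),
        ∀ u : List α, FDAccepts η p₀ G u ↔ ∃ T, AcceptsIn δ q₀ F T u := by
  refine ⟨?_, fun c hc => ?_⟩
  · obtain ⟨C, k', P, hP, η, p₀, G, h1, h2, h3⟩ := TX.nested_turns_aut' δ q₀ F r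
    refine ⟨C, k', P, hP, η, p₀, G, h1, fun u T m S hT hS hm h => ?_,
      fun u t h m S ht hS hm hacc => ?_⟩
    · subst hS
      refine h3 u T m hT ?_ h
      rwa [← mul_assoc]
    · subst hS
      refine h2 u t h m ht ?_ ((nested_iff δ q₀ F r h t u).mp hacc)
      rwa [← mul_assoc]
  · refine TX.polylog_nested δ q₀ F r c fun u hu => ?_
    obtain ⟨t, h, ht, hh, hacc⟩ := hc u hu
    exact ⟨t, h, ht, hh, (nested_iff δ q₀ F r h t u).mp hacc⟩

end Pool.Agent.Helper17.TXC
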